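import Pool.Agent.H43.RO.Fin5

/-!
# On-line colouring of k-colourable graphs: an oblivious adversary

For all large `n` and all `3 ≤ k ≤ n`: `φ(k, n) ≥ n ^ (1 / (log* n - log* k + 7))`.  Moreover, for
all `r` with `log* n - log* k + 5 ≤ r` and `r ^ 3 ≤ log₂ n`, and `B = n ^ (1 / (r + 2))`: for every
`2 ^ b` on-line algorithms there is one `k`-colourable on-line graph on `n` vertices without odd
closed walks of length less than `2 r + 3` on which each of them uses at least `B / b ^ 2` colours;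
every randomised algorithm uses on some such graph at least `B / b ^ 2` colours with probability
at least `1 - 2 ^ (-b)`, and in expectation.
-/

set_option autoImplicit false

namespace Pool.Agent.Results.MP_af9794_lc.ObliviousAdversary

open MeasureTheory
open Pool.Agent.H64.OC Pool.Agent.H64.OC2
open Pool.Agent.H43.RO (OddGirthGE)

/-- the bound `n ^ (1 / (r + 2))` -/
noncomputable def B (n r : ℕ) : ℝ := (n : ℝ) ^ (1 / ((r : ℝ) + 2))

/-- `k`-colourable, and every closed walk of odd length has length at least `2 r + 3` -/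
def Hard (k r n : ℕ) (G : SimpleGraph (Fin n)) : Prop :=
  G.Colorable k ∧ OddGirthGE G (2 * r + 3)

theorem result : ∃ n₀ : ℕ, ∀ n : ℕ, n₀ ≤ n → ∀ k : ℕ, 3 ≤ k → k ≤ n →
    (n : ℝ) ^ (1 / ((logStar n : ℝ) - (logStar k : ℝ) + 7)) ≤ (phi k n : ℝ) ∧
    ∀ r b : ℕ, logStar n + 5 ≤ r + logStar k → r ^ 3 ≤ Nat.log 2 n → 1 ≤ b →
      (∀ A : Fin (2 ^ b) → OnlineAlg, (∀ i, (A i).Proper) →
        ∃ G : SimpleGraph (Fin n), Hard k r n G ∧
          ∀ i, B n r / (b : ℝ) ^ 2 ≤ ((A i).numColours G : ℝ)) ∧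
      (∀ (Θ : Type) [MeasurableSpace Θ] (P : Measure Θ) [IsProbabilityMeasure P]
        (A : Θ → OnlineAlg), (∀ t, (A t).Proper) →
        (∀ G : SimpleGraph (Fin n), Measurable fun t => (A t).numColours G) →
        ∃ G : SimpleGraph (Fin n), Hard k r n G ∧
          ENNReal.ofReal (1 - (1 / 2) ^ b) ≤
            P {t | B n r / (b : ℝ) ^ 2 ≤ ((A t).numColours G : ℝ)} ∧
          ENNReal.ofReal (B n r / (b : ℝ) ^ 2) ≤
            ∫⁻ t, ((A t).numColours G : ENNReal) ∂P) := by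
  obtain ⟨n₁, h1⟩ := Pool.Agent.H43.RO.main3.{0}
  obtain ⟨n₂, h2⟩ := Pool.Agent.H43.RO.phi_lower3
  refine ⟨max n₁ n₂, fun n hn k hk hkn => ⟨?_, fun r b hr hr3 hb => ⟨?_, ?_⟩⟩⟩
  · exact h2 n ((le_max_right _ _).trans hn) k hk hkn
  · exact (h1 n ((le_max_left _ _).trans hn) k hk hkn r hr hr3 b hb).1
  · intro Θ _ P _ A hA hmeas
    exact (h1 n ((le_max_left _ _).trans hn) k hk hkn r hr hr3 b hb).2 P A hA hmeas

end Pool.Agent.Results.MP_af9794_lc.ObliviousAdversary
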